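import Pool.Agent.R751.RmD

set_option autoImplicit false
open MeasureTheory Set Filter Topology Metric Module
open scoped ENNReal RealInnerProductSpace

namespace Pool.Agent.Results.MP_fd6526_gt.MeanBodyEmbeds

variable {n : ℕ}

/-- a convex body: compact, convex, with nonempty interior -/
structure Body (K : Set (EuclideanSpace ℝ (Fin n))) : Prop where
  compact : IsCompact K
  convex : Convex ℝ K
  interior_nonempty : (interior K).Nonempty

/-- the radial function `ρ_M(x) = sup {t ≥ 0 : t x ∈ M}` -/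
noncomputable def radial (M : Set (EuclideanSpace ℝ (Fin n))) (x : EuclideanSpace ℝ (Fin n)) : ℝ :=
  sSup {t : ℝ | 0 ≤ t ∧ t • x ∈ M}

/-- the radial function of `R_pK` at a unit vector `u`:
`(Vol(K)⁻¹ ∫_K ρ_{K-y}(u)^p dy)^{1/p}` -/
noncomputable def meanRadial (K : Set (EuclideanSpace ℝ (Fin n))) (p : ℝ)
    (u : EuclideanSpace ℝ (Fin n)) : ℝ :=
  ((volume K).toReal⁻¹ * ∫ y in K, radial ((fun z => z - y) '' K) u ^ p) ^ (1 / p)

/-- the radial `p`-th mean body `R_pK` -/
def meanBody (K : Set (EuclideanSpace ℝ (Fin n))) (p : ℝ) : Set (EuclideanSpace ℝ (Fin n)) :=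
  {x | x = 0 ∨ ‖x‖ ≤ meanRadial K p (‖x‖⁻¹ • x)}

/-- `M` embeds in `L^q`: there is a finite Borel measure `μ` on the unit sphere with
`ρ_M(x)^{-q} = ∫ |⟨x, u⟩|^q dμ(u)` for all `x ≠ 0` -/
def EmbedsIn (M : Set (EuclideanSpace ℝ (Fin n))) (q : ℝ) : Prop :=
  ∃ μ : Measure (sphere (0 : EuclideanSpace ℝ (Fin n)) 1), IsFiniteMeasure μ ∧
    ∀ x : EuclideanSpace ℝ (Fin n), x ≠ 0 →
      radial M x ^ (-q) = ∫ u, |⟪x, (u : EuclideanSpace ℝ (Fin n))⟫| ^ q ∂μ

open Pool.Agent.R751.RMB

lemma radial_eq (K : Set (EuclideanSpace ℝ (Fin n))) (y x : EuclideanSpace ℝ (Fin n)) :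
    radial ((fun z => z - y) '' K) x = len K x y := rad_translate K y x

lemma integrable_len {K : Set (EuclideanSpace ℝ (Fin n))} (hK : Body K) {q : ℝ} (hq : 0 < q)
    (hq1 : q < 1) {x : EuclideanSpace ℝ (Fin n)} (hx : x ≠ 0) :
    IntegrableOn (fun y => len K x y ^ (-q)) K := by
  have hm : Measurable fun y => K.indicator (len K x) y ^ (-q) :=
    (measurable_len hK.compact hK.convex hx).pow_const _
  have h1 : IntegrableOn (fun y => K.indicator (len K x) y ^ (-q)) K := by
    refine ⟨hm.aestronglyMeasurable, ?_⟩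
    rw [hasFiniteIntegral_iff_ofReal]
    · refine lt_of_eq_of_lt ?_ (moment_lt_top hK.compact hK.convex hK.interior_nonempty hq hq1 hx)
      refine setLIntegral_congr_fun hK.compact.measurableSet fun y hy => ?_
      simp only [indicator_of_mem hy]
    · exact Eventually.of_forall fun y =>
        Real.rpow_nonneg (indicator_nonneg (fun z _ => len_nonneg K x z) y) _
  refine h1.congr_fun ?_ hK.compact.measurableSet
  intro y hy
  simp only [indicator_of_mem hy]

/-- the mean of the powers of the chord lengths -/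
noncomputable def mean (K : Set (EuclideanSpace ℝ (Fin n))) (q : ℝ)
    (x : EuclideanSpace ℝ (Fin n)) : ℝ :=
  (volume K).toReal⁻¹ * ∫ y in K, len K x y ^ (-q)

lemma volume_pos {K : Set (EuclideanSpace ℝ (Fin n))} (hK : Body K) : 0 < (volume K).toReal :=
  ENNReal.toReal_pos (Measure.measure_pos_of_nonempty_interior _ hK.interior_nonempty).ne'
    hK.compact.measure_lt_top.ne

lemma mean_pos {K : Set (EuclideanSpace ℝ (Fin n))} (hK : Body K) {q : ℝ} (hq : 0 < q)
    (hq1 : q < 1) {x : EuclideanSpace ℝ (Fin n)} (hx : x ≠ 0) : 0 < mean K q x := by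
  unfold mean
  refine mul_pos (inv_pos.2 (volume_pos hK)) ?_
  rw [setIntegral_pos_iff_support_of_nonneg_ae]
  · refine lt_of_lt_of_le (isOpen_interior.measure_pos volume hK.interior_nonempty) ?_
    refine measure_mono fun y hy => ⟨?_, interior_subset hy⟩
    rw [Function.mem_support]
    exact (Real.rpow_pos_of_pos (len_pos hK.compact hx hy) _).ne'
  · exact Eventually.of_forall fun y => Real.rpow_nonneg (len_nonneg K x y) _
  · exact integrable_len hK hq hq1 hx

lemma meanRadial_eq (K : Set (EuclideanSpace ℝ (Fin n))) (p : ℝ) (u : EuclideanSpace ℝ (Fin n)) :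
    meanRadial K p u = mean K (-p) u ^ (1 / p) := by
  unfold meanRadial mean
  simp_rw [radial_eq, neg_neg]

lemma radial_meanBody {K : Set (EuclideanSpace ℝ (Fin n))} (hK : Body K) {p : ℝ} (hp : -1 < p)
    (hp0 : p < 0) {x : EuclideanSpace ℝ (Fin n)} (hx : x ≠ 0) :
    radial (meanBody K p) x = meanRadial K p (‖x‖⁻¹ • x) / ‖x‖ := by
  have hn : 0 < ‖x‖ := norm_pos_iff.2 hx
  have hu : ‖x‖⁻¹ • x ≠ 0 := smul_ne_zero (inv_ne_zero hn.ne') hx
  have hφ : 0 ≤ meanRadial K p (‖x‖⁻¹ • x) := by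
    rw [meanRadial_eq]
    exact Real.rpow_nonneg (mean_pos hK (by linarith) (by linarith) hu).le _
  have hset : {t : ℝ | 0 ≤ t ∧ t • x ∈ meanBody K p}
      = Icc 0 (meanRadial K p (‖x‖⁻¹ • x) / ‖x‖) := by
    ext t
    simp only [meanBody, mem_ofPred_eq, mem_Icc]
    refine and_congr_right fun ht => ?_
    rcases ht.eq_or_lt with h | h
    · rw [← h]
      simp only [zero_smul, true_or, true_iff]
      positivity
    · have h1 : ‖t • x‖⁻¹ • (t • x) = ‖x‖⁻¹ • x := by
        rw [norm_smul, Real.norm_eq_abs, abs_of_pos h, smul_smul]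
        congr 1
        field_simp
      have h2 : t • x ≠ 0 := smul_ne_zero h.ne' hx
      rw [h1, norm_smul, Real.norm_eq_abs, abs_of_pos h, le_div_iff₀ hn]
      simp [h2]
  unfold radial
  rw [hset, csSup_Icc (by positivity)]

lemma mean_rep {K : Set (EuclideanSpace ℝ (Fin n))} (hK : Body K) {q : ℝ} (hq : 0 < q)
    (hq1 : q < 1) : ∃ μ : Measure (sphere (0 : EuclideanSpace ℝ (Fin n)) 1), IsFiniteMeasure μ ∧
    ∀ x : EuclideanSpace ℝ (Fin n), x ≠ 0 →
      mean K q x = ∫ u, |⟪x, (u : EuclideanSpace ℝ (Fin n))⟫| ^ q ∂μ := by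
  obtain ⟨ν, hν⟩ := moment_spectral hK.compact hK.convex hq
  obtain ⟨μ, hμ, hrep⟩ := exists_sphere hq ν fun x hx => by
    rw [← hν x hx]
    exact moment_lt_top hK.compact hK.convex hK.interior_nonempty hq hq1 hx
  refine ⟨(ENNReal.ofReal (volume K).toReal⁻¹) • μ, ?_, fun x hx => ?_⟩
  · exact Measure.smul_finite μ ENNReal.ofReal_ne_top
  · rw [integral_smul_measure, ENNReal.toReal_ofReal (inv_nonneg.2 ENNReal.toReal_nonneg),
      smul_eq_mul, mean]
    congr 1
    rw [integral_eq_lintegral_of_nonneg_ae, integral_eq_lintegral_of_nonneg_ae, hν x hx, hrep]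
    · exact Eventually.of_forall fun u => Real.rpow_nonneg (abs_nonneg _) _
    · refine Measurable.aestronglyMeasurable ?_
      have : Measurable fun u : sphere (0 : EuclideanSpace ℝ (Fin n)) 1 =>
          |⟪x, (u : EuclideanSpace ℝ (Fin n))⟫| := by
        refine Continuous.measurable ?_
        fun_prop
      exact this.pow_const q
    · exact Eventually.of_forall fun y => Real.rpow_nonneg (len_nonneg K x y) _
    · exact (integrable_len hK hq hq1 hx).aestronglyMeasurable

/-- homogeneity of the integral -/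
lemma integral_hom (μ : Measure (sphere (0 : EuclideanSpace ℝ (Fin n)) 1)) {q : ℝ} {c : ℝ}
    (hc : 0 ≤ c) (x : EuclideanSpace ℝ (Fin n)) :
    ∫ u, |⟪c • x, (u : EuclideanSpace ℝ (Fin n))⟫| ^ q ∂μ
      = c ^ q * ∫ u, |⟪x, (u : EuclideanSpace ℝ (Fin n))⟫| ^ q ∂μ := by
  rw [← integral_const_mul]
  congr 1
  ext u
  rw [real_inner_smul_left, abs_mul, abs_of_nonneg hc, Real.mul_rpow hc (abs_nonneg _)]

/-- **Q1 of MP_fd6526.** For every `n`, every convex body `K ⊂ ℝⁿ` and every `p ∈ (-1, 0)` the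
radial mean body `R_pK` embeds in `L^{-p}`. -/
theorem result (n : ℕ) (p : ℝ) (hp : -1 < p) (hp0 : p < 0)
    (K : Set (EuclideanSpace ℝ (Fin n))) (hK : Body K) :
    (∀ u : EuclideanSpace ℝ (Fin n), ‖u‖ = 1 →
      IntegrableOn (fun y => radial ((fun z => z - y) '' K) u ^ p) K ∧
      0 < meanRadial K p u ∧ radial (meanBody K p) u = meanRadial K p u) ∧
    EmbedsIn (meanBody K p) (-p) := by
  have hq : 0 < -p := by linarith
  have hq1 : -p < 1 := by linarith
  refine ⟨fun u hu => ⟨?_, ?_, ?_⟩, ?_⟩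
  · have hu0 : u ≠ 0 := by
      intro h; rw [h, norm_zero] at hu; exact zero_ne_one hu
    have := integrable_len hK hq hq1 hu0
    rw [neg_neg] at this
    simp_rw [radial_eq]
    exact this
  · have hu0 : u ≠ 0 := by
      intro h; rw [h, norm_zero] at hu; exact zero_ne_one hu
    rw [meanRadial_eq]
    exact Real.rpow_pos_of_pos (mean_pos hK hq hq1 hu0) _
  · have hu0 : u ≠ 0 := by
      intro h; rw [h, norm_zero] at hu; exact zero_ne_one hu
    rw [radial_meanBody hK hp hp0 hu0, hu, inv_one, one_smul, div_one]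
  · obtain ⟨μ, hμ, hrep⟩ := mean_rep hK hq hq1
    refine ⟨μ, hμ, fun x hx => ?_⟩
    have hn : 0 < ‖x‖ := norm_pos_iff.2 hx
    have hu : ‖x‖⁻¹ • x ≠ 0 := smul_ne_zero (inv_ne_zero hn.ne') hx
    have hm := (mean_pos hK hq hq1 hu).le
    rw [radial_meanBody hK hp hp0 hx, meanRadial_eq, neg_neg,
      Real.div_rpow (Real.rpow_nonneg hm _) hn.le, ← Real.rpow_mul hm,
      one_div, inv_mul_cancel₀ hp0.ne, Real.rpow_one, hrep _ hu,
      integral_hom μ (inv_nonneg.2 hn.le), Real.inv_rpow hn.le, Real.rpow_neg hn.le, inv_inv,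
      mul_div_assoc, mul_comm, div_mul_cancel₀]
    exact (Real.rpow_pos_of_pos hn _).ne'

end Pool.Agent.Results.MP_fd6526_gt.MeanBodyEmbeds
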